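import Mathlib

/-!
# Universal improvement of the Crouzeix-Palencia bound: definitions and module statements

Blueprint: `/team-store/h51_cp.md`.
-/

namespace Pool.Agent.Helper51.CP

open Complex MeasureTheory Set
open scoped BoundedContinuousFunction

noncomputable section

/-- real cross product `Im (conj a * b)`; positive when `b` is to the left of `a`. -/
def crs (a b : ℂ) : ℝ := ((starRingEnd ℂ) a * b).im

/-- A convex polygon, counterclockwise, with a marked interior point `z0`. -/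
structure CPoly where
  N : ℕ
  v : ℕ → ℂ
  npos : 0 < N
  closed : v N = v 0
  nd : ∀ j, j < N → v (j + 1) ≠ v j
  /-- all vertices lie to the left of every side line -/
  left : ∀ j, j < N → ∀ k, k ≤ N → 0 ≤ crs (v (j + 1) - v j) (v k - v j)
  /-- points of an open side lie strictly inside with respect to the other sides -/
  strict : ∀ j, j < N → ∀ k, k < N → j ≠ k → ∀ s : ℝ, 0 < s → s < 1 →
    0 < crs (v (k + 1) - v k) (v j + s * (v (j + 1) - v j) - v k)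
  z0 : ℂ
  inside : ∀ j, j < N → 0 < crs (v (j + 1) - v j) (z0 - v j)
  /-- the winding number about `z0` is one -/
  wind : ∑ j ∈ Finset.range N, ∫ s in (0 : ℝ)..1,
    (v (j + 1) - v j) / (v j + s * (v (j + 1) - v j) - z0) = 2 * Real.pi * I

namespace CPoly

variable (P : CPoly)

/-- the open sides of the polygon (parametrised): this is the boundary without the vertices -/
abbrev X : Type := Fin P.N × Set.Ioo (0 : ℝ) 1

/-- side vector of side `j` -/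
def side (j : ℕ) : ℂ := P.v (j + 1) - P.v j

/-- the boundary point with parameter `x` -/
def gm (x : P.X) : ℂ := P.v x.1 + ((x.2 : ℝ) : ℂ) * P.side x.1

/-- side vector at a boundary point -/
def dr (x : P.X) : ℂ := P.side x.1

/-- parameter measure on the boundary -/
def ds : Measure P.X := (Measure.count : Measure (Fin P.N)).prod
  (Measure.comap Subtype.val (volume : Measure ℝ) : Measure (Set.Ioo (0 : ℝ) 1))

/-- kernel of the double layer potential: `(1/pi) d arg (gm x - w)` with respect to `ds` -/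
def ker (w : ℂ) (x : P.X) : ℝ := (P.dr x / (P.gm x - w)).im / Real.pi

/-- the random chord (double layer) probability measure seen from the boundary point `b` -/
def Pm (b : P.X) : Measure P.X := P.ds.withDensity (fun x => ENNReal.ofReal (P.ker (P.gm b) x))

/-- direction (in `[0, pi]`) in which `x` is seen from `b`, relative to the side of `b` -/
def ang (b x : P.X) : ℝ := ((P.gm x - P.gm b) / P.dr b).arg

/-- the coordinate function as a bounded continuous function on the boundary -/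
def gmB : P.X →ᵇ ℂ :=
  BoundedContinuousFunction.ofNormedAddCommGroup P.gm
    (by unfold gm side; fun_prop) ((∑ j ∈ Finset.range (P.N + 1), ‖P.v j‖) * 3)
    (by
      rintro ⟨j, s, hs⟩
      have h1 : ‖P.v j‖ ≤ ∑ j ∈ Finset.range (P.N + 1), ‖P.v j‖ :=
        Finset.single_le_sum (f := fun j => ‖P.v j‖) (fun i _ => norm_nonneg _)
          (Finset.mem_range.2 (by omega))
      have h2 : ‖P.v (j + 1)‖ ≤ ∑ j ∈ Finset.range (P.N + 1), ‖P.v j‖ :=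
        Finset.single_le_sum (f := fun j => ‖P.v j‖) (fun i _ => norm_nonneg _)
          (Finset.mem_range.2 (by omega))
      have h3 : ‖((s : ℝ) : ℂ) * P.side j‖ ≤ ‖P.v (j + 1)‖ + ‖P.v j‖ := by
        rw [norm_mul]
        have h4 : ‖((s : ℝ) : ℂ)‖ ≤ 1 := by
          rw [Complex.norm_real, Real.norm_eq_abs, abs_le]
          constructor <;> [linarith [hs.1]; linarith [hs.2]]
        calc ‖((s : ℝ) : ℂ)‖ * ‖P.side j‖ ≤ 1 * ‖P.side j‖ := by gcongr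
          _ ≤ ‖P.v (j + 1)‖ + ‖P.v j‖ := by rw [one_mul]; exact norm_sub_le _ _
      calc ‖P.gm (j, ⟨s, hs⟩)‖ ≤ ‖P.v j‖ + ‖((s : ℝ) : ℂ) * P.side j‖ := norm_add_le _ _
        _ ≤ _ := by linarith)

@[simp] lemma gmB_apply (x : P.X) : P.gmB x = P.gm x := rfl

/-- uniform closure of the polynomials on the boundary -/
def Alg : Subalgebra ℂ (P.X →ᵇ ℂ) := (Algebra.adjoin ℂ {P.gmB}).topologicalClosure

lemma gmB_mem : P.gmB ∈ P.Alg :=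
  Subalgebra.le_topologicalClosure _ (Algebra.subset_adjoin rfl)

/-- `psi` is the Crouzeix-Palencia companion `alpha phi` of `phi` -/
def IsAl (φ ψ : P.X →ᵇ ℂ) : Prop := ∀ b, ψ b = (starRingEnd ℂ) (∫ x, φ x ∂(P.Pm b))

/-- `z` lies strictly inside `P` -/
def Int (z : ℂ) : Prop := ∀ j, j < P.N → 0 < crs (P.side j) (z - P.v j)

/-- the numerical range of `B` lies strictly inside `P` -/
def InW {E : Type*} [NormedAddCommGroup E] [InnerProductSpace ℂ E] (B : E →L[ℂ] E) : Prop :=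
  ∃ η : ℝ, 0 < η ∧ ∀ x : E, ‖x‖ = 1 → ∀ j, j < P.N → η ≤ crs (P.side j) (inner ℂ x (B x) - P.v j)

/-- resolvent bound along the homotopy from `z0` to `a` -/
def ResOK {A : Type*} [NormedRing A] [NormedAlgebra ℂ A] (a : A) : Prop :=
  ∃ C : ℝ, ∀ t : ℝ, 0 ≤ t → t ≤ 1 → ∀ j, j < P.N → ∀ s : ℝ, 0 ≤ s → s ≤ 1 →
    IsUnit (algebraMap ℂ A (P.v j + s * P.side j) -
      (algebraMap ℂ A P.z0 + (t : ℂ) • (a - algebraMap ℂ A P.z0))) ∧
    ‖Ring.inverse (algebraMap ℂ A (P.v j + s * P.side j) -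
      (algebraMap ℂ A P.z0 + (t : ℂ) • (a - algebraMap ℂ A P.z0)))‖ ≤ C

/-- Cauchy integral `(1 / 2 pi i) ∮ phi(z) (z - a)^{-1} dz` of a bounded function on the boundary -/
def Cau {A : Type*} [NormedRing A] [NormedAlgebra ℂ A] (a : A) (φ : P.X → ℂ) : A :=
  (2 * Real.pi * I : ℂ)⁻¹ •
    ∫ x, (φ x * P.dr x) • Ring.inverse (algebraMap ℂ A (P.gm x) - a) ∂P.ds

/-- `R f b = P_b [1 + Re (conj (f b) f)] / 2` -/
def R (f : P.X →ᵇ ℂ) (b : P.X) : ℝ :=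
  (1 + ((starRingEnd ℂ) (f b) * ∫ x, f x ∂(P.Pm b)).re) / 2

end CPoly

open CPoly

/-! ## Module statements -/

/-- the constant of the geometric lemma -/
def eps0 : ℝ := 9 / 10 ^ 11

/-- PM: the kernel is nonnegative and the chord measures are probability measures -/
def ST_PM : Prop := ∀ P : CPoly,
  (∀ (w : ℂ), (∀ j, j < P.N → 0 ≤ crs (P.side j) (w - P.v j)) → ∀ x : P.X, 0 ≤ P.ker w x) ∧
  (∀ b x : P.X, 0 ≤ P.ker (P.gm b) x) ∧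
  ∀ b : P.X, IsProbabilityMeasure (P.Pm b)

/-- DIR: the direction of a random chord is uniform on `(0, pi)` -/
def ST_DIR : Prop := ∀ (P : CPoly) (b : P.X),
  (P.Pm b).map (P.ang b) = ENNReal.ofReal (1 / Real.pi) • (volume.restrict (Set.Ioo 0 Real.pi))

/-- CAU: Cauchy's formula in a Banach algebra and the functional calculus on `P.Alg` -/
def ST_CAU.{u} : Prop := ∀ (P : CPoly) (A : Type u) [NormedRing A] [NormedAlgebra ℂ A]
  [CompleteSpace A] [NormOneClass A] (a : A), P.ResOK a →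
  ∃ Φ : P.Alg →ₐ[ℂ] A, (∀ φ : P.Alg, Φ φ = P.Cau a (φ : P.X →ᵇ ℂ)) ∧
    Φ ⟨P.gmB, P.gmB_mem⟩ = a ∧ ∃ C : ℝ, ∀ φ : P.Alg, ‖Φ φ‖ ≤ C * ‖φ‖

/-- RES1: resolvent bound for an interior point -/
def ST_RES1 : Prop := ∀ (P : CPoly) (z : ℂ), P.Int z → P.ResOK z

/-- RES2: resolvent bound for operators with numerical range inside -/
def ST_RES2.{u} : Prop := ∀ (P : CPoly) (E : Type u) [NormedAddCommGroup E]
  [InnerProductSpace ℂ E] [FiniteDimensional ℂ E] [Nontrivial E] (B : E →L[ℂ] E),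
  P.InW B → P.ResOK B

/-- ALF: the companion of a function of `P.Alg` is again in `P.Alg`, and it has the right
Cauchy integrals -/
def ST_ALF.{u} : Prop := ∀ P : CPoly, (∀ φ ∈ P.Alg, ∃ ψ ∈ P.Alg, P.IsAl φ ψ) ∧
  ∀ (A : Type u) [NormedRing A] [NormedAlgebra ℂ A] [CompleteSpace A] [NormOneClass A] (a : A),
    P.ResOK a → ∀ φ ∈ P.Alg, ∀ ψ ∈ P.Alg, P.IsAl φ ψ →
      P.Cau a ψ = P.Cau a (fun x => (starRingEnd ℂ) (φ x))

/-- SB: the operator `S(phi) = Phi(phi) + Phi(alpha phi)^*` has norm at most `2 |phi|` -/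
def ST_SB.{u} : Prop := ∀ (P : CPoly) (E : Type u) [NormedAddCommGroup E]
  [InnerProductSpace ℂ E] [FiniteDimensional ℂ E] [Nontrivial E] (B : E →L[ℂ] E),
  P.InW B → ∀ φ : P.X →ᵇ ℂ,
    ‖P.Cau B φ + ContinuousLinearMap.adjoint (P.Cau B (fun x => (starRingEnd ℂ) (φ x)))‖
      ≤ 2 * ‖φ‖

/-- OPT: the abstract operator argument -/
def ST_OPT.{u} : Prop := ∀ (P : CPoly) (E : Type u) [NormedAddCommGroup E]
  [InnerProductSpace ℂ E] [FiniteDimensional ℂ E] [Nontrivial E] (Φ : P.Alg →ₐ[ℂ] (E →L[ℂ] E)),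
  (∀ b : P.X, IsProbabilityMeasure (P.Pm b)) →
  (∀ φ ∈ P.Alg, ∃ ψ ∈ P.Alg, P.IsAl φ ψ) →
  (∃ C : ℝ, ∀ φ : P.Alg, ‖Φ φ‖ ≤ C * ‖φ‖) →
  (∀ φ ψ : P.Alg, P.IsAl φ ψ → ‖Φ φ + ContinuousLinearMap.adjoint (Φ ψ)‖ ≤ 2 * ‖φ‖) →
  (∀ f ∈ P.Alg, ‖f‖ ≤ 1 → ∀ b : P.X, eps0 ≤ P.R f b + ∫ x, P.R f x ∂(P.Pm b)) →
  ∀ φ : P.Alg, ‖Φ φ‖ ≤ (1 + Real.sqrt (2 - eps0 / 8)) * ‖φ‖

/-- GEO: the geometric lemma -/
def ST_GEO : Prop := ∀ (P : CPoly) (f : P.X →ᵇ ℂ), f ∈ P.Alg → ‖f‖ ≤ 1 →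
  ∀ b : P.X, eps0 ≤ P.R f b + ∫ x, P.R f x ∂(P.Pm b)

/-- the small parameter of the geometric lemma -/
def tt : ℝ := 1 / 1000

/-- G1: smallness of `R f b0 + P_{b0} R f` -/
def ST_G1 : Prop := ST_PM → ∀ (P : CPoly) (f : P.X →ᵇ ℂ), ‖f‖ ≤ 1 → ∀ b0 : P.X,
  P.R f b0 + ∫ x, P.R f x ∂(P.Pm b0) < eps0 →
  ∃ c : ℂ, 1 - 2 * eps0 ≤ ‖c‖ ∧ ‖c‖ ≤ 1 ∧
    ∫⁻ x, ENNReal.ofReal (‖f x - c‖ ^ 2) ∂(P.Pm b0) ≤ ENNReal.ofReal (4 * eps0) ∧
    ∫⁻ b, (∫⁻ x, ENNReal.ofReal (‖f x + c‖ ^ 2) ∂(P.Pm b)) ∂(P.Pm b0)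
      ≤ ENNReal.ofReal (16 * eps0)

/-- G2: choice of the far point `e` and of the good set `Bg` -/
def ST_G2 : Prop := ST_PM → ∀ (P : CPoly) (b0 : P.X) (f : P.X →ᵇ ℂ) (c : ℂ), ‖f‖ ≤ 1 →
  1 - 2 * eps0 ≤ ‖c‖ →
  ∫⁻ x, ENNReal.ofReal (‖f x - c‖ ^ 2) ∂(P.Pm b0) ≤ ENNReal.ofReal (4 * eps0) →
  ∫⁻ b, (∫⁻ x, ENNReal.ofReal (‖f x + c‖ ^ 2) ∂(P.Pm b)) ∂(P.Pm b0)
    ≤ ENNReal.ofReal (16 * eps0) →
  ∃ (e : P.X) (Bg : Set P.X), MeasurableSet Bg ∧ 0 < P.ker (P.gm b0) e ∧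
    ENNReal.ofReal (1 - 2 * tt) ≤ P.Pm b0 Bg ∧
    ∀ b ∈ Bg, ‖P.gm b - P.gm b0‖ ≤ ‖P.gm e - P.gm b0‖ ∧
      P.ker (P.gm b) e ≤ tt * P.ker (P.gm b0) e

/-- normalised data: in the coordinate `q z = lam * (z - gm b0)` the polygon lies in
`0 ≤ Im`, `Re (conj n * q) ≤ 1`, and most chord end points are close to the line
`Re (conj n * q) = 1` -/
def NDat (P : CPoly) (b0 : P.X) (lam n : ℂ) (Bg : Set P.X) : Prop :=
  ‖n‖ = 1 ∧ 0 < (lam * P.dr b0).re ∧ (lam * P.dr b0).im = 0 ∧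
  (∀ k ≤ P.N, 0 ≤ (lam * (P.v k - P.gm b0)).im) ∧
  (∀ k ≤ P.N, ((starRingEnd ℂ) n * (lam * (P.v k - P.gm b0))).re ≤ 1) ∧
  MeasurableSet Bg ∧ ENNReal.ofReal (1 - 2 * tt) ≤ P.Pm b0 Bg ∧
  ∀ b ∈ Bg, 1 - 4 * tt ≤ ((starRingEnd ℂ) n * (lam * (P.gm b - P.gm b0))).re

/-- G3: the typical chord end points are near the tangent line at `e` -/
def ST_G3 : Prop := ∀ (P : CPoly) (b0 e : P.X) (Bg : Set P.X), MeasurableSet Bg →
  0 < P.ker (P.gm b0) e → ENNReal.ofReal (1 - 2 * tt) ≤ P.Pm b0 Bg →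
  (∀ b ∈ Bg, ‖P.gm b - P.gm b0‖ ≤ ‖P.gm e - P.gm b0‖ ∧
    P.ker (P.gm b) e ≤ tt * P.ker (P.gm b0) e) →
  ∃ lam n : ℂ, NDat P b0 lam n Bg

/-- strip data: the polygon looks like a long strip around `b0` -/
def SDat (P : CPoly) (b0 : P.X) (lam n : ℂ) : Prop :=
  ‖n‖ = 1 ∧ 0 < (lam * P.dr b0).re ∧ (lam * P.dr b0).im = 0 ∧
  (∀ k ≤ P.N, 0 ≤ (lam * (P.v k - P.gm b0)).im) ∧
  (∀ k ≤ P.N, ((starRingEnd ℂ) n * (lam * (P.v k - P.gm b0))).re ≤ 1) ∧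
  |n.re| ≤ 0.0063 ∧ 0.99998 ≤ n.im ∧
  ∃ z1 z2 : ℂ, z1 ∈ convexHull ℝ {z : ℂ | ∃ k ≤ P.N, z = lam * (P.v k - P.gm b0)} ∧
    z2 ∈ convexHull ℝ {z : ℂ | ∃ k ≤ P.N, z = lam * (P.v k - P.gm b0)} ∧
    62 ≤ z1.re ∧ 0 ≤ z1.im ∧ z1.im ≤ 0.0096 * z1.re ∧ z2.re ≤ -62 ∧ 0 ≤ z2.im ∧
    z2.im ≤ 0.0096 * (-z2.re) ∧ 0.996 ≤ ((starRingEnd ℂ) n * z1).re ∧
    0.996 ≤ ((starRingEnd ℂ) n * z2).re

/-- G4: from the uniform direction law to strip data -/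
def ST_G4 : Prop := ST_DIR → ∀ (P : CPoly) (b0 : P.X) (lam n : ℂ) (Bg : Set P.X),
  NDat P b0 lam n Bg → SDat P b0 lam n

/-- distance (in the coordinate `q`) of `w` to the side line through the boundary point `x` -/
def ell (P : CPoly) (b0 : P.X) (lam : ℂ) (x : P.X) (w : ℂ) : ℝ :=
  crs (lam * P.dr x) (w - lam * (P.gm x - P.gm b0)) / ‖lam * P.dr x‖

/-- all facts about boundary points used in the final estimate; `b` is a point on the top side -/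
def BFacts (P : CPoly) (b0 b : P.X) (lam : ℂ) : Prop :=
  lam ≠ 0 ∧ |(lam * (P.gm b - P.gm b0)).re| ≤ 0.9 ∧ 0.99 ≤ (lam * (P.gm b - P.gm b0)).im ∧
  (lam * (P.gm b - P.gm b0)).im ≤ 1.006 ∧
  ∀ x : P.X, 0 ≤ (lam * (P.gm x - P.gm b0)).im ∧
    (lam * (P.gm x - P.gm b0)).im ≤ 1.0001 + 0.0064 * |(lam * (P.gm x - P.gm b0)).re| ∧
    0.47 ≤ ell P b0 lam x (lam * (P.gm b - P.gm b0) / 2) ∧
    (|(lam * (P.gm x - P.gm b0)).re| ≤ 6 →
      (0.996 - 0.0063 * |(lam * (P.gm x - P.gm b0)).re| ≤ (lam * (P.gm x - P.gm b0)).im ∧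
        0.77 ≤ ell P b0 lam x 0) ∨
      ((lam * (P.gm x - P.gm b0)).im ≤ 0.0096 * |(lam * (P.gm x - P.gm b0)).re| ∧
        0.72 ≤ ell P b0 lam x (lam * (P.gm b - P.gm b0))))

/-- G5: choice of a good point `b` on the top side -/
def ST_G5 : Prop := ST_DIR → ∀ (P : CPoly) (b0 : P.X) (lam n : ℂ), SDat P b0 lam n →
  ∀ F : P.X → ENNReal, Measurable F → ∫⁻ b, F b ∂(P.Pm b0) ≤ ENNReal.ofReal (16 * eps0) →
  ∃ b : P.X, F b ≤ ENNReal.ofReal (40 * eps0) ∧ 0.9 ≤ P.ang b0 b ∧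
    P.ang b0 b ≤ Real.pi - 0.9

/-- G6: all geometric facts about boundary points -/
def ST_G6 : Prop := ∀ (P : CPoly) (b0 b : P.X) (lam n : ℂ), SDat P b0 lam n →
  0.9 ≤ P.ang b0 b → P.ang b0 b ≤ Real.pi - 0.9 → BFacts P b0 b lam

/-- WT: Cauchy formula with a weight -/
def ST_WT : Prop := ∀ (P : CPoly) (z : ℂ), P.Int z → ∀ F ∈ P.Alg, ∀ G ∈ P.Alg,
  ∀ (p : Polynomial ℂ), p.eval z = 0 → ∀ c : ℂ,
  P.Cau z (fun x => F x * Complex.exp (p.eval (P.gm x))) = P.Cau z F ∧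
  P.Cau z (fun x => F x + c * G x) = P.Cau z F + c * P.Cau z G ∧
  P.Cau z (fun _ => (1 : ℂ)) = 1

/-- G7: the final contradiction (three lines estimate) -/
def ST_G7 : Prop := ST_WT → ST_PM → ∀ (P : CPoly) (b0 b : P.X) (lam : ℂ), BFacts P b0 b lam →
  ∀ f ∈ P.Alg, ‖f‖ ≤ 1 → ∀ c : ℂ, 1 - 2 * eps0 ≤ ‖c‖ → ‖c‖ ≤ 1 →
  ∫⁻ x, ENNReal.ofReal (‖f x - c‖ ^ 2) ∂(P.Pm b0) ≤ ENNReal.ofReal (4 * eps0) →
  ∫⁻ x, ENNReal.ofReal (‖f x + c‖ ^ 2) ∂(P.Pm b) ≤ ENNReal.ofReal (40 * eps0) → False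

/-- POLY: polygons between a compact convex set and a neighbourhood -/
def ST_POLY : Prop := ∀ W : Set ℂ, IsCompact W → Convex ℝ W → W.Nonempty → ∀ r : ℝ, 0 < r →
  ∃ (P : CPoly) (η : ℝ), 0 < η ∧ (∀ w ∈ W, ∀ j, j < P.N → η ≤ crs (P.side j) (w - P.v j)) ∧
    ∀ j ≤ P.N, Metric.infDist (P.v j) W ≤ r

/-- TH: the Toeplitz-Hausdorff theorem -/
def ST_TH.{u} : Prop := ∀ (E : Type u) [NormedAddCommGroup E] [InnerProductSpace ℂ E]
  (B : E →L[ℂ] E), Convex ℝ {z : ℂ | ∃ x : E, ‖x‖ = 1 ∧ z = inner ℂ x (B x)}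

/-- FIN: the finite dimensional inequality implies the theorem -/
def ST_FIN.{u} : Prop := ST_POLY → ST_TH.{u} →
  (∀ (E : Type u) [NormedAddCommGroup E] [InnerProductSpace ℂ E] [FiniteDimensional ℂ E]
    [Nontrivial E] (B : E →L[ℂ] E) (P : CPoly), P.InW B → ∀ (p : Polynomial ℂ) (M : ℝ),
    (∀ x : P.X, ‖p.eval (P.gm x)‖ ≤ M) →
    ‖Polynomial.aeval B p‖ ≤ (1 + Real.sqrt (2 - eps0 / 8)) * M) →
  ∀ (H : Type u) [NormedAddCommGroup H] [InnerProductSpace ℂ H] (B : H →L[ℂ] H)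
    (p : Polynomial ℂ) (M : ℝ), 0 ≤ M → (∀ x : H, ‖x‖ = 1 → ‖p.eval (inner ℂ x (B x))‖ ≤ M) →
    ‖Polynomial.aeval B p‖ ≤ (1 + Real.sqrt (2 - eps0 / 8)) * M

end

end Pool.Agent.Helper51.CP
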