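import Pool.Agent.Helper51.CP.FinalAux
import Pool.Agent.Helper12.CP.PM
import Pool.Agent.Helper12.CP.G5
import Pool.Agent.Helper55.CP.G1
import Pool.Agent.Helper55.CP.G2
import Pool.Agent.Helper76.CP.G3
import Pool.Agent.Helper76.CP.G4
import Pool.Agent.Helper76.CP.G6
import Pool.Agent.Helper71.CP.CAU
import Pool.Agent.Helper71.CP.WT
import Pool.Agent.Helper71.CP.RES2
import Pool.Agent.Helper71.CP.SB
import Pool.Agent.Helper71.CP.TH
import Pool.Agent.Helper71.CP.FIN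
import Pool.Agent.Helper53.CP.POLY
import Pool.Agent.Helper78.CP.ALF
import Pool.Agent.Helper99.CP.G7

namespace Pool.Agent.Helper51.CP

open Complex MeasureTheory Set CPoly

noncomputable section

theorem main.{u} {E : Type u} [NormedAddCommGroup E]
    [InnerProductSpace ℂ E] (A : E →L[ℂ] E) (p : Polynomial ℂ) :
    BddAbove {r : ℝ | ∃ x : E, ‖x‖ = 1 ∧ r = ‖p.eval (inner ℂ x (A x))‖} ∧
    ‖Polynomial.aeval A p‖
      ≤ (1 + Real.sqrt 2 - 1 / 10 ^ 12) *
        sSup {r : ℝ | ∃ x : E, ‖x‖ = 1 ∧ r = ‖p.eval (inner ℂ x (A x))‖} :=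
  main_of (Helper71.CP.st_FIN Helper53.CP.st_POLY Helper71.CP.st_TH
    (fd_of Helper12.CP.st_PM Helper71.CP.st_CAU Helper71.CP.st_RES2
      (Helper78.CP.st_ALF Helper71.CP.st_CAU Helper71.CP.st_CAU Helper71.CP.st_RES1
        Helper12.CP.st_PM) Helper71.CP.st_SB
      (geo_of Helper12.CP.st_PM Helper12.CP.st_DIR Helper55.CP.st_G1 Helper55.CP.st_G2
        Helper76.CP.st_G3 Helper76.CP.st_G4 Helper12.CP.st_G5 Helper76.CP.st_G6
        Helper71.CP.st_WT Helper99.CP.st_G7))) A p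

end

end Pool.Agent.Helper51.CP
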