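import Pool.Agent.Helper51.CP.GEO

namespace Pool.Agent.Helper51.CP

open Complex MeasureTheory Set CPoly

noncomputable section

theorem main_of.{u} (hfin : ∀ (H : Type u) [NormedAddCommGroup H] [InnerProductSpace ℂ H]
    (B : H →L[ℂ] H)
    (p : Polynomial ℂ) (M : ℝ), 0 ≤ M → (∀ x : H, ‖x‖ = 1 → ‖p.eval (inner ℂ x (B x))‖ ≤ M) →
    ‖Polynomial.aeval B p‖ ≤ (1 + Real.sqrt (2 - eps0 / 8)) * M)
    {E : Type u} [NormedAddCommGroup E] [InnerProductSpace ℂ E]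
    (A : E →L[ℂ] E) (p : Polynomial ℂ) :
    BddAbove {r : ℝ | ∃ x : E, ‖x‖ = 1 ∧ r = ‖p.eval (inner ℂ x (A x))‖} ∧
    ‖Polynomial.aeval A p‖
      ≤ (1 + Real.sqrt 2 - 1 / 10 ^ 12) *
        sSup {r : ℝ | ∃ x : E, ‖x‖ = 1 ∧ r = ‖p.eval (inner ℂ x (A x))‖} := by
  have hbdd : BddAbove {r : ℝ | ∃ x : E, ‖x‖ = 1 ∧ r = ‖p.eval (inner ℂ x (A x))‖} := by
    have hc : IsCompact (Metric.closedBall (0 : ℂ) ‖A‖) := isCompact_closedBall _ _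
    obtain ⟨C, hC⟩ := hc.exists_bound_of_continuousOn (f := fun z => p.eval z)
      p.continuous.continuousOn
    refine ⟨C, ?_⟩
    rintro r ⟨x, hx, rfl⟩
    apply hC
    rw [mem_closedBall_zero_iff]
    calc ‖inner ℂ x (A x)‖ ≤ ‖x‖ * ‖A x‖ := norm_inner_le_norm _ _
      _ ≤ ‖x‖ * (‖A‖ * ‖x‖) := by gcongr; exact A.le_opNorm x
      _ = ‖A‖ := by rw [hx]; ring
  refine ⟨hbdd, ?_⟩
  have h0 : 0 ≤ sSup {r : ℝ | ∃ x : E, ‖x‖ = 1 ∧ r = ‖p.eval (inner ℂ x (A x))‖} := by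
    apply Real.sSup_nonneg
    rintro r ⟨x, hx, rfl⟩
    exact norm_nonneg _
  refine (hfin E A p _ h0 (fun x hx => le_csSup hbdd ⟨x, hx, rfl⟩)).trans ?_
  exact mul_le_mul_of_nonneg_right const_le h0

end

end Pool.Agent.Helper51.CP
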