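import Pool.Agent.Helper51.CP.OPT
import Pool.Agent.Helper55.CP.G1

/-!
# Assembly: the geometric lemma from G1, ..., G7, and the finite dimensional inequality
-/

namespace Pool.Agent.Helper51.CP

open Complex MeasureTheory Set CPoly
open scoped BoundedContinuousFunction

noncomputable section

theorem geo_of (hPM : ST_PM) (hDIR : ST_DIR) (h1 : ST_G1) (h2 : ST_G2) (h3 : ST_G3) (h4 : ST_G4)
    (h5 : ST_G5) (h6 : ST_G6) (hWT : ST_WT) (h7 : ST_G7) : ST_GEO := by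
  intro P f hfA hf b0
  by_contra hcon
  rw [not_le] at hcon
  obtain ⟨c, hc1, hc2, hc3, hc4⟩ := h1 hPM P f hf b0 hcon
  obtain ⟨e, Bg, hBm, hke, hBg, hB⟩ := h2 hPM P b0 f c hf hc1 hc3 hc4
  obtain ⟨lam, n, hN⟩ := h3 P b0 e Bg hBm hke hBg hB
  have hS := h4 hDIR P b0 lam n Bg hN
  have hm : Measurable (fun x : P.X => ENNReal.ofReal (‖f x + c‖ ^ 2)) := by
    have hf' : Measurable (fun x : P.X => f x) := f.continuous.measurable
    exact ((hf'.add_const c).norm.pow_const 2).ennreal_ofReal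
  obtain ⟨b, hb1, hb2, hb3⟩ := h5 hDIR P b0 lam n hS
    (fun b => ∫⁻ x, ENNReal.ofReal (‖f x + c‖ ^ 2) ∂(P.Pm b))
    (Pool.Agent.Helper55.CP.lint_Pm_meas P hm) hc4
  have hF := h6 P b0 b lam n hS hb2 hb3
  exact h7 hWT hPM P b0 b lam hF f hfA hf c hc1 hc2 hc3 hb1

/-- the bounded continuous function on the boundary given by a polynomial -/
def pB (P : CPoly) (p : Polynomial ℂ) : P.Alg :=
  Polynomial.aeval (⟨P.gmB, P.gmB_mem⟩ : P.Alg) p

lemma pB_apply (P : CPoly) (p : Polynomial ℂ) (x : P.X) :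
    ((pB P p : P.X →ᵇ ℂ)) x = p.eval (P.gm x) := by
  unfold pB
  have h1 : ((Polynomial.aeval (⟨P.gmB, P.gmB_mem⟩ : P.Alg) p : P.Alg) : P.X →ᵇ ℂ)
      = Polynomial.aeval P.gmB p := by
    have := Polynomial.aeval_algHom_apply P.Alg.val (⟨P.gmB, P.gmB_mem⟩ : P.Alg) p
    exact this.symm
  rw [h1]
  induction p using Polynomial.induction_on' with
  | add p q hp hq =>
    have h2 : ∀ p : Polynomial ℂ,
        ((Polynomial.aeval (⟨P.gmB, P.gmB_mem⟩ : P.Alg) p : P.Alg) : P.X →ᵇ ℂ)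
        = Polynomial.aeval P.gmB p := fun p =>
      (Polynomial.aeval_algHom_apply P.Alg.val (⟨P.gmB, P.gmB_mem⟩ : P.Alg) p).symm
    rw [map_add, Polynomial.eval_add, BoundedContinuousFunction.add_apply, hp (h2 p), hq (h2 q)]
  | monomial n a =>
    rw [Polynomial.aeval_monomial, Polynomial.eval_monomial, BoundedContinuousFunction.mul_apply,
      BoundedContinuousFunction.pow_apply, gmB_apply, Algebra.algebraMap_eq_smul_one]
    simp

lemma X_nonempty (P : CPoly) : Nonempty P.X :=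
  ⟨(⟨0, P.npos⟩, ⟨1 / 2, by norm_num, by norm_num⟩)⟩

theorem fd_of.{u} (hPM : ST_PM) (hCAU : ST_CAU.{u}) (hRES2 : ST_RES2.{u}) (hALF : ST_ALF.{u})
    (hSB : ST_SB.{u}) (hGEO : ST_GEO) :
    ∀ (E : Type u) [NormedAddCommGroup E] [InnerProductSpace ℂ E] [FiniteDimensional ℂ E]
    [Nontrivial E] (B : E →L[ℂ] E) (P : CPoly), P.InW B → ∀ (p : Polynomial ℂ) (M : ℝ),
    (∀ x : P.X, ‖p.eval (P.gm x)‖ ≤ M) →
    ‖Polynomial.aeval B p‖ ≤ (1 + Real.sqrt (2 - eps0 / 8)) * M := by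
  intro E _ _ _ _ B P hW p M hM
  have hres := hRES2 P E B hW
  haveI : CompleteSpace E := FiniteDimensional.complete ℂ E
  obtain ⟨Φ, hΦ, hΦg, hΦC⟩ := hCAU P (E →L[ℂ] E) B hres
  obtain ⟨hA1, hA2⟩ := hALF P
  have key := st_OPT P E Φ (fun b => (hPM P).2.2 b) hA1 hΦC (by
    intro φ ψ hal
    have h1 : Φ ψ = P.Cau B (fun x => (starRingEnd ℂ) ((φ : P.X →ᵇ ℂ) x)) := by
      rw [hΦ ψ]
      exact hA2 (E →L[ℂ] E) B hres φ φ.2 ψ ψ.2 hal
    rw [h1, hΦ φ]
    exact hSB P E B hW φ) (fun f hf hf1 b => hGEO P f hf hf1 b) (pB P p)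
  have h2 : Φ (pB P p) = Polynomial.aeval B p := by
    unfold pB
    rw [← Polynomial.aeval_algHom_apply, hΦg]
  rw [h2] at key
  haveI := X_nonempty P
  have hM0 : 0 ≤ M := (norm_nonneg _).trans (hM (Classical.arbitrary _))
  have h3 : ‖pB P p‖ ≤ M := by
    change ‖((pB P p : P.X →ᵇ ℂ))‖ ≤ M
    rw [BoundedContinuousFunction.norm_le hM0]
    intro x
    rw [pB_apply]
    exact hM x
  refine key.trans ?_
  have h4 : 0 ≤ 1 + Real.sqrt (2 - eps0 / 8) := by positivity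
  exact mul_le_mul_of_nonneg_left h3 h4

lemma const_le : 1 + Real.sqrt (2 - eps0 / 8) ≤ 1 + Real.sqrt 2 - 1 / 10 ^ 12 := by
  have h0 : Real.sqrt 2 ^ 2 = 2 := Real.sq_sqrt (by norm_num)
  have h1 : 1 ≤ Real.sqrt 2 := by
    rw [Real.one_le_sqrt]; norm_num
  have h1' : Real.sqrt 2 ≤ 1.4143 := by
    rw [Real.sqrt_le_left (by norm_num)]; norm_num
  have h2 : Real.sqrt (2 - eps0 / 8) ≤ Real.sqrt 2 - 1 / 10 ^ 12 := by
    rw [Real.sqrt_le_left (by linarith)]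
    unfold eps0
    nlinarith
  linarith

end

end Pool.Agent.Helper51.CP
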