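import Pool.Agent.Helper51.CP.Defs

namespace Pool.Agent.Helper51.CP

open Complex MeasureTheory Set
open scoped BoundedContinuousFunction ComplexConjugate InnerProductSpace

noncomputable section

open CPoly

lemma coe_norm_le (P : CPoly) (φ : P.Alg) (b : P.X) : ‖(φ : P.X →ᵇ ℂ) b‖ ≤ ‖φ‖ :=
  BoundedContinuousFunction.norm_coe_le_norm (φ : P.X →ᵇ ℂ) b

lemma norm_le_of (P : CPoly) (φ : P.Alg) {c : ℝ} (hc : 0 ≤ c)
    (h : ∀ b, ‖(φ : P.X →ᵇ ℂ) b‖ ≤ c) : ‖φ‖ ≤ c :=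
  (BoundedContinuousFunction.norm_le hc).2 h

/-- almost positivity of a functional of norm almost one -/
lemma pos_lemma (P : CPoly) (M : P.Alg →ₗ[ℂ] ℂ) {η e : ℝ} (hη : 0 ≤ η) (he : 0 < e)
    (he1 : η ≤ e ^ 2 / 144) (hη1 : η ≤ 1) (hM1 : M 1 = 1) (hM : ∀ φ, ‖M φ‖ ≤ (1 + η) * ‖φ‖)
    (φ : P.Alg) (hφ : ‖φ‖ ≤ 6) (hre : ∀ b, 0 ≤ ((φ : P.X →ᵇ ℂ) b).re) : -e ≤ (M φ).re := by
  set t : ℝ := 72 / e with ht
  have htpos : 0 < t := by positivity
  have hn : ‖((t : ℂ) • (1 : P.Alg) - φ)‖ ≤ t + 18 / t := by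
    apply norm_le_of P _ (by positivity)
    intro b
    have h1 : ((((t : ℂ) • (1 : P.Alg) - φ : P.Alg) : P.X →ᵇ ℂ) b) = (t : ℂ) - (φ : P.X →ᵇ ℂ) b := by
      simp
    rw [h1]
    have h2 : ‖(φ : P.X →ᵇ ℂ) b‖ ≤ 6 := (coe_norm_le P φ b).trans hφ
    have h3 := hre b
    set z : ℂ := (φ : P.X →ᵇ ℂ) b
    have h4 : ‖(t : ℂ) - z‖ ^ 2 ≤ (t + 18 / t) ^ 2 := by
      rw [← Complex.normSq_eq_norm_sq, Complex.normSq_apply]
      have h5 : z.re * z.re + z.im * z.im ≤ 36 := by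
        have : ‖z‖ ^ 2 ≤ 6 ^ 2 := by gcongr
        rw [← Complex.normSq_eq_norm_sq, Complex.normSq_apply] at this
        linarith
      have h6 : (t + 18 / t) ^ 2 = t ^ 2 + 36 + (18 / t) ^ 2 := by
        field_simp; ring
      rw [h6]
      simp only [Complex.sub_re, Complex.ofReal_re, Complex.sub_im, Complex.ofReal_im]
      nlinarith [sq_nonneg (18 / t), mul_nonneg htpos.le h3]
    exact abs_le_of_sq_le_sq' h4 (by positivity) |>.2
  have h1 := hM ((t : ℂ) • (1 : P.Alg) - φ)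
  have h2 : M ((t : ℂ) • (1 : P.Alg) - φ) = t - M φ := by
    rw [map_sub, map_smul, hM1]; simp
  rw [h2] at h1
  have h3 : t - (M φ).re ≤ ‖(t : ℂ) - M φ‖ := by
    have := Complex.re_le_norm ((t : ℂ) - M φ)
    simpa using this
  have h4 : (1 + η) * ‖((t : ℂ) • (1 : P.Alg) - φ)‖ ≤ (1 + η) * (t + 18 / t) := by
    gcongr
  have h5 : t - (M φ).re ≤ (1 + η) * (t + 18 / t) := by linarith
  have h6 : η * t ≤ e / 2 := by
    calc η * t ≤ e ^ 2 / 144 * t := by gcongr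
      _ = e / 2 := by rw [ht]; field_simp; norm_num
  have h7 : 18 / t = e / 4 := by rw [ht]; field_simp; norm_num
  have h8 : (1 + η) * (18 / t) ≤ e / 2 := by
    rw [h7]; nlinarith
  nlinarith

/-- real arithmetic at the end -/
lemma arith (ε e K m a w κ MD : ℝ) (hε : 0 < ε) (hε1 : ε ≤ 1 / 1000) (he : e = ε / 200)
    (hK : 1 + Real.sqrt (2 - ε / 8) < K)
    (hκ : κ = (1 + 2 * K - K ^ 2) / 2) (h1 : m ≤ κ) (h2 : -e ≤ m)
    (h3 : -w ≤ κ + (K ^ 2 - 1) * m) (h4 : MD ≤ a / 3 + 3 * m + e) (h5 : a = MD - w)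
    (h6 : ε - e ≤ m + a) : False := by
  have hs : 0 ≤ 2 - ε / 8 := by linarith
  have hsq := Real.sq_sqrt hs
  have hsn := Real.sqrt_nonneg (2 - ε / 8)
  have hK1 : 2 - ε / 8 < (K - 1) ^ 2 := by nlinarith
  have hK2 : (K - 1) ^ 2 = 2 - 2 * κ := by rw [hκ]; ring
  have hκe : -e ≤ κ := by linarith
  have hK3 : (K - 1) ^ 2 ≤ 2 + 2 * e := by linarith
  have he2 : e ≤ 1 / 200000 := by rw [he]; linarith
  have hepos : 0 < e := by rw [he]; positivity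
  have hK4 : K - 1 ≤ 1.41422 := by
    by_contra hcon
    push Not at hcon
    nlinarith
  have hK5 : K ^ 2 ≤ 5.83 := by nlinarith
  have hK0 : 0 < K := by nlinarith
  have hK6 : 0 ≤ K ^ 2 := by positivity
  have h7 : (2 / 3) * a ≤ κ + (K ^ 2 + 2) * m + e := by nlinarith
  have h8 : (K ^ 2 + 2) * m ≤ 7.83 * κ + 8 * e := by
    have : (K ^ 2 + 2) * m ≤ (K ^ 2 + 2) * κ := by gcongr
    have h9 : (K ^ 2 + 2) * (κ + e) ≤ 7.83 * (κ + e) := by
      have : 0 ≤ κ + e := by linarith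
      gcongr; linarith
    nlinarith
  have h9 : m + a ≤ 14.245 * κ + 14 * e := by linarith
  have h10 : 2 * κ < ε / 8 := by linarith
  rw [he] at *
  linarith

/-- existence of a top singular pair in finite dimension -/
lemma sing_pair {E : Type*} [NormedAddCommGroup E] [InnerProductSpace ℂ E]
    [FiniteDimensional ℂ E] [Nontrivial E] (T : E →L[ℂ] E) (hT : 0 < ‖T‖) :
    ∃ x y : E, ‖x‖ = 1 ∧ ‖y‖ = 1 ∧ T x = ((‖T‖ : ℝ) : ℂ) • y ∧
      ContinuousLinearMap.adjoint T y = ((‖T‖ : ℝ) : ℂ) • x := by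
  haveI : ProperSpace E := FiniteDimensional.proper ℂ E
  have hc : IsCompact (Metric.sphere (0 : E) 1) := isCompact_sphere 0 1
  have hne : (Metric.sphere (0 : E) 1).Nonempty := by
    obtain ⟨u, hu⟩ := exists_ne (0 : E)
    refine ⟨((‖u‖⁻¹ : ℝ) : ℂ) • u, ?_⟩
    simp [norm_smul, hu]
  obtain ⟨x, hx, hmax⟩ := hc.exists_isMaxOn hne (f := fun x => ‖T x‖) (by fun_prop)
  have hx1 : ‖x‖ = 1 := by simpa using hx
  have hTx : ‖T x‖ = ‖T‖ := by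
    apply le_antisymm
    · calc ‖T x‖ ≤ ‖T‖ * ‖x‖ := T.le_opNorm x
        _ = ‖T‖ := by rw [hx1, mul_one]
    · apply T.opNorm_le_bound (norm_nonneg _)
      intro u
      by_cases hu : u = 0
      · simp [hu]
      · have hu' : ‖u‖ ≠ 0 := by simpa using hu
        have h1 : ((‖u‖⁻¹ : ℝ) : ℂ) • u ∈ Metric.sphere (0 : E) 1 := by
          simp [norm_smul, hu]
        have h2 := hmax h1
        simp only [Set.mem_ofPred_eq] at h2
        rw [map_smul, norm_smul] at h2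
        have h3 : ‖((‖u‖⁻¹ : ℝ) : ℂ)‖ = ‖u‖⁻¹ := by
          rw [Complex.norm_real, Real.norm_of_nonneg (by positivity)]
        rw [h3] at h2
        rw [inv_mul_le_iff₀ (by positivity)] at h2
        linarith [mul_comm ‖u‖ ‖T x‖]
  have hne0 : ((‖T‖ : ℝ) : ℂ) ≠ 0 := by
    exact_mod_cast hT.ne'
  refine ⟨x, ((‖T‖ : ℝ) : ℂ)⁻¹ • T x, hx1, ?_, ?_, ?_⟩
  · rw [norm_smul, norm_inv, Complex.norm_real, Real.norm_of_nonneg hT.le, hTx]
    field_simp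
  · rw [smul_smul, mul_inv_cancel₀ hne0, one_smul]
  · set y : E := ((‖T‖ : ℝ) : ℂ)⁻¹ • T x with hy
    have hyn : ‖y‖ = 1 := by
      rw [hy, norm_smul, norm_inv, Complex.norm_real, Real.norm_of_nonneg hT.le, hTx]
      field_simp
    have hTxy : T x = ((‖T‖ : ℝ) : ℂ) • y := by
      rw [hy, smul_smul, mul_inv_cancel₀ hne0, one_smul]
    have h1 : ‖ContinuousLinearMap.adjoint T y‖ ≤ ‖T‖ := by
      calc _ ≤ ‖ContinuousLinearMap.adjoint T‖ * ‖y‖ := ContinuousLinearMap.le_opNorm _ _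
        _ = ‖T‖ := by rw [hyn, mul_one, LinearIsometryEquiv.norm_map]
    have h2 : RCLike.re ⟪ContinuousLinearMap.adjoint T y, ((‖T‖ : ℝ) : ℂ) • x⟫_ℂ = ‖T‖ ^ 2 := by
      rw [ContinuousLinearMap.adjoint_inner_left, map_smul, hTxy, smul_smul, inner_smul_right,
        inner_self_eq_norm_sq_to_K, hyn]
      simp
      simp [sq]
    have h3 : ‖ContinuousLinearMap.adjoint T y - ((‖T‖ : ℝ) : ℂ) • x‖ ^ 2 ≤ 0 := by
      rw [@norm_sub_sq ℂ, h2, norm_smul, Complex.norm_real, Real.norm_of_nonneg hT.le, hx1]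
      nlinarith [norm_nonneg (ContinuousLinearMap.adjoint T y)]
    have h4 : ‖ContinuousLinearMap.adjoint T y - ((‖T‖ : ℝ) : ℂ) • x‖ = 0 := by
      nlinarith [norm_nonneg (ContinuousLinearMap.adjoint T y - ((‖T‖ : ℝ) : ℂ) • x)]
    exact sub_eq_zero.1 (norm_eq_zero.1 h4)

section core

variable (P : CPoly) (hprob : ∀ b : P.X, IsProbabilityMeasure (P.Pm b))

include hprob in
lemma integrable_bcf (φ : P.X →ᵇ ℂ) (b : P.X) : Integrable (fun x => φ x) (P.Pm b) := by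
  haveI := hprob b
  exact φ.integrable _

include hprob in
lemma al_norm {φ ψ : P.Alg} (h : P.IsAl φ ψ) : ‖ψ‖ ≤ ‖φ‖ := by
  apply norm_le_of P _ (norm_nonneg _)
  intro b
  haveI := hprob b
  rw [h b, RCLike.norm_conj]
  calc ‖∫ x, (φ : P.X →ᵇ ℂ) x ∂(P.Pm b)‖ ≤ ‖φ‖ * (P.Pm b).real Set.univ :=
        norm_integral_le_of_norm_le_const (Filter.Eventually.of_forall fun x => coe_norm_le P φ x)
    _ = ‖φ‖ := by rw [probReal_univ, mul_one]

/-- the pointwise bound for `D` -/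
lemma D_bound (f k : P.X →ᵇ ℂ) (hf : ‖f‖ ≤ 1) (hk : ∀ x, ‖k x‖ ^ 2 ≤ (k x).re)
    (μ : Measure P.X) [IsProbabilityMeasure μ] (w : ℂ) (hw : ‖w‖ ≤ 1) :
    ‖∫ x, k x * (1 + conj w * f x) ∂μ‖ ≤ (1 / 3) * ∫ x, (k x).re ∂μ +
      (3 / 2) * (1 + (conj w * ∫ x, f x ∂μ).re) := by
  have hfi : Integrable (fun x => f x) μ := f.integrable μ
  have hki : Integrable (fun x => k x) μ := k.integrable μ
  have h1 : ∀ x, ‖k x * (1 + conj w * f x)‖ ≤ (1 / 3) * (k x).re +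
      (3 / 2) * (1 + (conj w * f x).re) := by
    intro x
    have hfx : ‖f x‖ ≤ 1 := (f.norm_coe_le_norm x).trans hf
    rw [norm_mul]
    have h2 : ‖1 + conj w * f x‖ ^ 2 ≤ 2 * (1 + (conj w * f x).re) := by
      have h3 : ‖conj w * f x‖ ≤ 1 := by
        rw [norm_mul, RCLike.norm_conj]
        calc ‖w‖ * ‖f x‖ ≤ 1 * 1 := by gcongr
          _ = 1 := by norm_num
      set z := conj w * f x
      have h4 : ‖z‖ ^ 2 ≤ 1 := by nlinarith [norm_nonneg z]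
      rw [← Complex.normSq_eq_norm_sq, Complex.normSq_apply] at h4 ⊢
      simp only [Complex.add_re, Complex.one_re, Complex.add_im, Complex.one_im]
      nlinarith
    have h3 := hk x
    nlinarith [sq_nonneg ((2/3) * ‖k x‖ - ‖1 + conj w * f x‖), norm_nonneg (k x),
      norm_nonneg (1 + conj w * f x)]
  calc ‖∫ x, k x * (1 + conj w * f x) ∂μ‖ ≤ ∫ x, ‖k x * (1 + conj w * f x)‖ ∂μ :=
        norm_integral_le_integral_norm _
    _ ≤ ∫ x, ((1 / 3) * (k x).re + (3 / 2) * (1 + (conj w * f x).re)) ∂μ := by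
        apply integral_mono_of_nonneg (Filter.Eventually.of_forall fun x => norm_nonneg _)
        · apply Integrable.add
          · exact (hki.re).const_mul _
          · exact ((integrable_const _).add (hfi.const_mul _).re).const_mul _
        · exact Filter.Eventually.of_forall h1
    _ = _ := by
        have i1 : Integrable (fun x => (k x).re) μ := hki.re
        have i2 : Integrable (fun x => (conj w * f x).re) μ := (hfi.const_mul (conj w)).re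
        have i3 : Integrable (fun x => 1 + (conj w * f x).re) μ := (integrable_const _).add i2
        rw [integral_add (i1.const_mul _) (i3.const_mul _),
          integral_const_mul, integral_const_mul, integral_add (integrable_const _) i2]
        have h5 : ∫ x, (conj w * f x).re ∂μ = (conj w * ∫ x, f x ∂μ).re := by
          rw [← integral_const_mul]
          exact integral_re (hfi.const_mul (conj w))
        rw [h5]
        simp

end core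

universe u

theorem st_OPT : ST_OPT.{u} := by
  intro P E _ _ _ _ Φ hprob hal hbd hS hG
  by_contra hcon
  push Not at hcon
  obtain ⟨φ0, hφ0⟩ := hcon
  obtain ⟨C, hC⟩ := hbd
  have hε : 0 < eps0 := by unfold eps0; norm_num
  have hε1 : eps0 ≤ 1 / 1000 := by unfold eps0; norm_num
  have hsq0 := Real.sqrt_nonneg (2 - eps0 / 8)
  set Ks : ℝ := 1 + Real.sqrt (2 - eps0 / 8) with hKsdef
  let S : Set ℝ := {r | ∃ φ : P.Alg, ‖φ‖ ≤ 1 ∧ r = ‖Φ φ‖}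
  have hSbdd : BddAbove S := by
    refine ⟨|C|, ?_⟩
    rintro r ⟨φ, hφ, rfl⟩
    calc ‖Φ φ‖ ≤ C * ‖φ‖ := hC φ
      _ ≤ |C| * 1 := mul_le_mul (le_abs_self C) hφ (norm_nonneg _) (abs_nonneg _)
      _ = |C| := mul_one _
  set K : ℝ := sSup S with hKdef
  have hK1 : ∀ φ : P.Alg, ‖φ‖ ≤ 1 → ‖Φ φ‖ ≤ K := fun φ hφ => le_csSup hSbdd ⟨φ, hφ, rfl⟩
  have hK0 : 0 ≤ K := (norm_nonneg _).trans (hK1 0 (by simp))
  have hscale : ∀ φ : P.Alg, φ ≠ 0 → ‖Φ ((((‖φ‖ : ℝ) : ℂ)⁻¹) • φ)‖ = ‖Φ φ‖ / ‖φ‖ ∧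
      ‖((((‖φ‖ : ℝ) : ℂ)⁻¹) • φ)‖ = 1 := by
    intro φ hφ
    have h0 : ‖φ‖ ≠ 0 := norm_ne_zero_iff.2 hφ
    constructor
    · rw [map_smul, norm_smul, norm_inv, Complex.norm_real, Real.norm_of_nonneg (norm_nonneg _)]
      field_simp
    · rw [norm_smul, norm_inv, Complex.norm_real, Real.norm_of_nonneg (norm_nonneg _)]
      field_simp
  have hK : ∀ φ : P.Alg, ‖Φ φ‖ ≤ K * ‖φ‖ := by
    intro φ
    by_cases hφ : φ = 0
    · simp [hφ]
    · obtain ⟨h1, h2⟩ := hscale φ hφ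
      have h3 := hK1 _ h2.le
      rw [h1, div_le_iff₀ (norm_pos_iff.2 hφ)] at h3
      exact h3
  have hKs : Ks < K := by
    have hφ : φ0 ≠ 0 := by
      rintro rfl
      simp at hφ0
    obtain ⟨h1, h2⟩ := hscale φ0 hφ
    have h3 := hK1 _ h2.le
    rw [h1] at h3
    have h4 : Ks < ‖Φ φ0‖ / ‖φ0‖ := by
      rw [lt_div_iff₀ (norm_pos_iff.2 hφ)]
      exact hφ0
    exact h4.trans_le h3
  have hKpos : 0 < K := by linarith
  set e : ℝ := eps0 / 200 with he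
  have hepos : 0 < e := by positivity
  set η : ℝ := e ^ 2 / 144 with hη
  have hηpos : 0 < η := by positivity
  have hη1 : η ≤ 1 := by
    rw [hη, he]; unfold eps0; norm_num
  obtain ⟨f, hf, hfK⟩ : ∃ f : P.Alg, ‖f‖ ≤ 1 ∧ max Ks (K / (1 + η)) < ‖Φ f‖ := by
    have h1 : max Ks (K / (1 + η)) < sSup S := by
      apply max_lt hKs
      rw [div_lt_iff₀ (by positivity)]
      nlinarith
    have hSne : S.Nonempty := ⟨‖Φ 0‖, 0, by simp, rfl⟩
    obtain ⟨r, ⟨φ, hφ, rfl⟩, hr⟩ := exists_lt_of_lt_csSup hSne h1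
    exact ⟨φ, hφ, hr⟩
  set Kf : ℝ := ‖Φ f‖ with hKf
  have hKfs : Ks < Kf := (le_max_left _ _).trans_lt hfK
  have hKfK : K ≤ (1 + η) * Kf := by
    have := (le_max_right Ks (K / (1 + η))).trans_lt hfK
    rw [div_lt_iff₀ (by positivity)] at this
    linarith
  have hKf0 : 0 < Kf := by linarith
  have hKfc : ((Kf : ℝ) : ℂ) ≠ 0 := by exact_mod_cast hKf0.ne'
  obtain ⟨x, y, hx, hy, hTx, hTy⟩ := sing_pair (Φ f) hKf0
  rw [← hKf] at hTx hTy
  let M : P.Alg →ₗ[ℂ] ℂ :=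
    { toFun := fun φ => ⟪x, Φ φ x⟫_ℂ
      map_add' := by intro a b; simp [inner_add_right]
      map_smul' := by intro a b; simp [inner_smul_right] }
  have hMdef : ∀ φ, M φ = ⟪x, Φ φ x⟫_ℂ := fun _ => rfl
  have hM1 : M 1 = 1 := by
    rw [hMdef, map_one]
    simp [hx]
  have hMf : ∀ ψ : P.Alg, ⟪y, Φ (f * ψ) x⟫_ℂ = Kf * M ψ := by
    intro ψ
    rw [map_mul, mul_apply_eq_comp, ← ContinuousLinearMap.adjoint_inner_left, hTy,
      inner_smul_left, hMdef]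
    simp
  have hfmul : ∀ ψ : P.Alg, ‖f * ψ‖ ≤ ‖ψ‖ := by
    intro ψ
    calc ‖f * ψ‖ ≤ ‖f‖ * ‖ψ‖ := norm_mul_le _ _
      _ ≤ 1 * ‖ψ‖ := by gcongr
      _ = ‖ψ‖ := one_mul _
  have hMn : ∀ ψ : P.Alg, ‖M ψ‖ ≤ (1 + η) * ‖ψ‖ := by
    intro ψ
    have h1 : Kf * ‖M ψ‖ ≤ K * ‖ψ‖ := by
      have h2 : ‖⟪y, Φ (f * ψ) x⟫_ℂ‖ ≤ ‖y‖ * ‖Φ (f * ψ) x‖ := norm_inner_le_norm _ _
      rw [hMf, norm_mul, Complex.norm_real, Real.norm_of_nonneg hKf0.le, hy, one_mul] at h2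
      calc Kf * ‖M ψ‖ ≤ ‖Φ (f * ψ) x‖ := h2
        _ ≤ ‖Φ (f * ψ)‖ * ‖x‖ := ContinuousLinearMap.le_opNorm _ _
        _ ≤ K * ‖f * ψ‖ * 1 := by rw [hx]; gcongr; exact hK _
        _ ≤ K * ‖ψ‖ := by rw [mul_one]; gcongr; exact hfmul ψ
    have h3 : K * ‖ψ‖ ≤ (1 + η) * Kf * ‖ψ‖ := by gcongr
    have h4 : Kf * ‖M ψ‖ ≤ Kf * ((1 + η) * ‖ψ‖) := by linarith [mul_comm Kf ((1 + η) * ‖ψ‖)]
    exact le_of_mul_le_mul_left h4 hKf0
  have hstar : ∀ χ : P.Alg, ⟪y, ContinuousLinearMap.adjoint (Φ χ) x⟫_ℂ = conj (M (f * χ)) / Kf := by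
    intro χ
    rw [ContinuousLinearMap.adjoint_inner_right]
    have h1 : ⟪x, Φ χ (((Kf : ℝ) : ℂ) • y)⟫_ℂ = M (f * χ) := by
      rw [← hTx, hMdef, mul_comm f χ, map_mul, mul_apply_eq_comp]
    rw [map_smul, inner_smul_right] at h1
    rw [← h1, map_mul, inner_conj_symm]
    simp
    field_simp
  have hineq : ∀ ψ χ : P.Alg, P.IsAl ((f * ψ : P.Alg) : P.X →ᵇ ℂ) χ →
      Kf * (M ψ).re + (M (f * χ)).re / Kf ≤ 2 * ‖f * ψ‖ := by
    intro ψ χ h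
    have h1 := hS (f * ψ) χ h
    have h2 : (⟪y, (Φ (f * ψ) + ContinuousLinearMap.adjoint (Φ χ)) x⟫_ℂ).re ≤ 2 * ‖f * ψ‖ := by
      calc _ ≤ ‖⟪y, (Φ (f * ψ) + ContinuousLinearMap.adjoint (Φ χ)) x⟫_ℂ‖ := Complex.re_le_norm _
        _ ≤ ‖y‖ * ‖(Φ (f * ψ) + ContinuousLinearMap.adjoint (Φ χ)) x‖ := norm_inner_le_norm _ _
        _ ≤ ‖Φ (f * ψ) + ContinuousLinearMap.adjoint (Φ χ)‖ * ‖x‖ := by
            rw [hy, one_mul]; exact ContinuousLinearMap.le_opNorm _ _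
        _ ≤ _ := by rw [hx, mul_one]; exact h1
    rw [add_apply, inner_add_right, hMf, hstar] at h2
    have h3 : ((Kf : ℂ) * M ψ + conj (M (f * χ)) / (Kf : ℂ)).re =
        Kf * (M ψ).re + (M (f * χ)).re / Kf := by
      rw [Complex.add_re, Complex.re_ofReal_mul, Complex.div_ofReal_re, Complex.conj_re]
    rw [h3] at h2
    exact h2
  obtain ⟨g', hg', hgal⟩ := hal f f.2
  let g : P.Alg := ⟨g', hg'⟩
  have hgal' : P.IsAl (f : P.X →ᵇ ℂ) (g : P.X →ᵇ ℂ) := hgal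
  have hgn : ‖g‖ ≤ 1 := (al_norm P hprob hgal').trans hf
  let k : P.Alg := (1 / 2 : ℂ) • (1 + f * g)
  have hkb : ∀ b, (k : P.X →ᵇ ℂ) b =
      (1 + (f : P.X →ᵇ ℂ) b * (g : P.X →ᵇ ℂ) b) / 2 := by
    intro b
    simp only [k]
    simp
    ring
  have hfb : ∀ b, ‖(f : P.X →ᵇ ℂ) b‖ ≤ 1 := fun b => (coe_norm_le P f b).trans hf
  have hgb : ∀ b, ‖(g : P.X →ᵇ ℂ) b‖ ≤ 1 := fun b => (coe_norm_le P g b).trans hgn
  have hfgb : ∀ b, ‖(f : P.X →ᵇ ℂ) b * (g : P.X →ᵇ ℂ) b‖ ≤ 1 := by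
    intro b
    rw [norm_mul]
    calc _ ≤ (1 : ℝ) * 1 := mul_le_mul (hfb b) (hgb b) (norm_nonneg _) (by norm_num)
      _ = 1 := by norm_num
  have hk2 : ∀ b, ‖(k : P.X →ᵇ ℂ) b‖ ^ 2 ≤ ((k : P.X →ᵇ ℂ) b).re := by
    intro b
    rw [hkb]
    have h := hfgb b
    set z := (f : P.X →ᵇ ℂ) b * (g : P.X →ᵇ ℂ) b
    have h4 : ‖z‖ ^ 2 ≤ 1 := by nlinarith [norm_nonneg z]
    have h5 : ‖(1 + z) / 2‖ ^ 2 = ‖1 + z‖ ^ 2 / 4 := by
      rw [norm_div]; norm_num; ring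
    rw [h5]
    rw [← Complex.normSq_eq_norm_sq, Complex.normSq_apply] at h4 ⊢
    have h6 : ((1 + z) / 2).re = (1 + z.re) / 2 := by
      simp
    rw [h6]
    simp only [Complex.add_re, Complex.one_re, Complex.add_im, Complex.one_im]
    nlinarith
  have hkre : ∀ b, 0 ≤ ((k : P.X →ᵇ ℂ) b).re := fun b => (sq_nonneg _).trans (hk2 b)
  have hkn : ‖k‖ ≤ 1 := by
    apply norm_le_of P _ zero_le_one
    intro b
    rw [hkb, norm_div]
    have : ‖1 + (f : P.X →ᵇ ℂ) b * (g : P.X →ᵇ ℂ) b‖ ≤ 1 + 1 := by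
      calc _ ≤ ‖(1 : ℂ)‖ + ‖(f : P.X →ᵇ ℂ) b * (g : P.X →ᵇ ℂ) b‖ := norm_add_le _ _
        _ ≤ 1 + 1 := by rw [norm_one]; linarith [hfgb b]
    rw [Complex.norm_ofNat]
    linarith
  obtain ⟨u', hu', hual⟩ := hal (f * k : P.Alg) (f * k).2
  obtain ⟨v', hv', hval⟩ := hal k k.2
  let u : P.Alg := ⟨u', hu'⟩
  let v : P.Alg := ⟨v', hv'⟩
  have hual' : P.IsAl ((f * k : P.Alg) : P.X →ᵇ ℂ) (u : P.X →ᵇ ℂ) := hual
  have hval' : P.IsAl (k : P.X →ᵇ ℂ) (v : P.X →ᵇ ℂ) := hval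
  have hun : ‖u‖ ≤ 1 := (al_norm P hprob hual').trans ((hfmul k).trans hkn)
  have hvn : ‖v‖ ≤ 1 := (al_norm P hprob hval').trans hkn
  -- values of k and v
  have hkR : ∀ b, ((k : P.X →ᵇ ℂ) b).re = P.R f b := by
    intro b
    rw [hkb, hgal' b]
    unfold CPoly.R
    have : ((1 + (f : P.X →ᵇ ℂ) b * conj (∫ x, (f : P.X →ᵇ ℂ) x ∂(P.Pm b))) / 2).re =
        (1 + ((f : P.X →ᵇ ℂ) b * conj (∫ x, (f : P.X →ᵇ ℂ) x ∂(P.Pm b))).re) / 2 := by simp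
    rw [this]
    congr 2
    rw [← Complex.conj_re, map_mul, Complex.conj_conj]
  have hvre : ∀ b, ((v : P.X →ᵇ ℂ) b).re = ∫ x, ((k : P.X →ᵇ ℂ) x).re ∂(P.Pm b) := by
    intro b
    rw [hval' b, Complex.conj_re]
    exact (integral_re (integrable_bcf P hprob (k : P.X →ᵇ ℂ) b)).symm
  -- the element D
  let D : P.Alg := f * u + v
  have hDb : ∀ b, ‖(D : P.X →ᵇ ℂ) b‖ ≤ (1 / 3) * ((v : P.X →ᵇ ℂ) b).re +
      3 * ((k : P.X →ᵇ ℂ) b).re := by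
    intro b
    have hpb := hprob b
    have h1 : (D : P.X →ᵇ ℂ) b = conj (∫ x, (k : P.X →ᵇ ℂ) x *
        (1 + conj ((f : P.X →ᵇ ℂ) b) * (f : P.X →ᵇ ℂ) x) ∂(P.Pm b)) := by
      have h2 : (D : P.X →ᵇ ℂ) b = (f : P.X →ᵇ ℂ) b * (u : P.X →ᵇ ℂ) b + (v : P.X →ᵇ ℂ) b := by
        simp [D]
      rw [h2, hual' b, hval' b]
      have i1 := integrable_bcf P hprob (k : P.X →ᵇ ℂ) b
      have i2 := integrable_bcf P hprob ((f * k : P.Alg) : P.X →ᵇ ℂ) b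
      have h3 : ∫ x, (k : P.X →ᵇ ℂ) x * (1 + conj ((f : P.X →ᵇ ℂ) b) * (f : P.X →ᵇ ℂ) x) ∂(P.Pm b)
          = ∫ x, (k : P.X →ᵇ ℂ) x ∂(P.Pm b) +
            conj ((f : P.X →ᵇ ℂ) b) * ∫ x, ((f * k : P.Alg) : P.X →ᵇ ℂ) x ∂(P.Pm b) := by
        rw [← integral_const_mul, ← integral_add i1 (i2.const_mul _)]
        congr 1
        ext x
        simp
        ring
      rw [h3, map_add, map_mul, Complex.conj_conj]
      ring
    rw [h1, RCLike.norm_conj]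
    have h4 := D_bound P (f : P.X →ᵇ ℂ) (k : P.X →ᵇ ℂ) hf hk2 (P.Pm b) ((f : P.X →ᵇ ℂ) b) (hfb b)
    have h5 : (3 / 2 : ℝ) * (1 + (conj ((f : P.X →ᵇ ℂ) b) * ∫ x, (f : P.X →ᵇ ℂ) x ∂(P.Pm b)).re) =
        3 * ((k : P.X →ᵇ ℂ) b).re := by
      rw [hkR]; unfold CPoly.R; ring
    rw [h5, ← hvre] at h4
    exact h4
  have hpos := pos_lemma P M hηpos.le hepos (le_refl _) hη1 hM1 hMn
  -- numbers
  set m : ℝ := (M k).re with hm
  set a : ℝ := (M v).re with ha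
  set w : ℝ := (M (f * u)).re with hw
  have hMfg : (M (f * g)).re = 2 * m - 1 := by
    have h1 : f * g = (2 : ℂ) • k - 1 := by
      simp only [k]
      rw [smul_smul]
      norm_num
    rw [h1, map_sub, map_smul, hM1, hm]
    simp
  have H2 : -e ≤ m := hpos k (hkn.trans (by norm_num)) hkre
  have H1 : m ≤ (1 + 2 * Kf - Kf ^ 2) / 2 := by
    have h1 := hineq 1 g (by rw [mul_one]; exact hgal')
    rw [hM1, mul_one, hMfg] at h1
    have h2 : Kf * (1 : ℂ).re + (2 * m - 1) / Kf ≤ 2 := by linarith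
    rw [Complex.one_re, mul_one] at h2
    have h3 : (Kf + (2 * m - 1) / Kf) * Kf ≤ 2 * Kf := by gcongr
    have h4 : (Kf + (2 * m - 1) / Kf) * Kf = Kf ^ 2 + (2 * m - 1) := by
      field_simp
    linarith
  have H3 : -w ≤ (1 + 2 * Kf - Kf ^ 2) / 2 + (Kf ^ 2 - 1) * m := by
    let ψ : P.Alg := 1 - (2 : ℂ) • k
    have hal2 : P.IsAl ((f * ψ : P.Alg) : P.X →ᵇ ℂ) ((g - (2 : ℂ) • u : P.Alg) : P.X →ᵇ ℂ) := by
      intro b
      have i1 := integrable_bcf P hprob (f : P.X →ᵇ ℂ) b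
      have i2 := integrable_bcf P hprob ((f * k : P.Alg) : P.X →ᵇ ℂ) b
      have h1 : ((g - (2 : ℂ) • u : P.Alg) : P.X →ᵇ ℂ) b =
          (g : P.X →ᵇ ℂ) b - 2 * (u : P.X →ᵇ ℂ) b := by simp
      rw [h1, hgal' b, hual' b]
      have h2 : ∫ x, ((f * ψ : P.Alg) : P.X →ᵇ ℂ) x ∂(P.Pm b) =
          ∫ x, (f : P.X →ᵇ ℂ) x ∂(P.Pm b) -
            2 * ∫ x, ((f * k : P.Alg) : P.X →ᵇ ℂ) x ∂(P.Pm b) := by
        rw [← integral_const_mul, ← integral_sub i1 (i2.const_mul _)]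
        congr 1
        ext x
        simp [ψ]
        ring
      rw [h2, map_sub, map_mul, Complex.conj_ofNat]
    have h1 := hineq ψ (g - (2 : ℂ) • u) hal2
    have hn : ‖f * ψ‖ ≤ 1 := by
      apply norm_le_of P _ zero_le_one
      intro b
      have h2 : ((f * ψ : P.Alg) : P.X →ᵇ ℂ) b =
          -((f : P.X →ᵇ ℂ) b * ((f : P.X →ᵇ ℂ) b * (g : P.X →ᵇ ℂ) b)) := by
        have : ((f * ψ : P.Alg) : P.X →ᵇ ℂ) b =
          (f : P.X →ᵇ ℂ) b * (1 - 2 * (k : P.X →ᵇ ℂ) b) := by simp [ψ]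
        rw [this, hkb]
        ring
      rw [h2, norm_neg, norm_mul]
      calc _ ≤ (1 : ℝ) * 1 := mul_le_mul (hfb b) (hfgb b) (norm_nonneg _) (by norm_num)
        _ = 1 := by norm_num
    have h3 : (M ψ).re = 1 - 2 * m := by
      simp only [ψ]
      rw [map_sub, map_smul, hM1, hm]
      simp
    have h4 : (M (f * (g - (2 : ℂ) • u))).re = (2 * m - 1) - 2 * w := by
      rw [mul_sub, mul_smul_comm, map_sub, map_smul, Complex.sub_re, hMfg, hw]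
      simp
    rw [h3, h4] at h1
    have h5 : (Kf * (1 - 2 * m) + (2 * m - 1 - 2 * w) / Kf) * Kf ≤ 2 * Kf := by
      have : Kf * (1 - 2 * m) + (2 * m - 1 - 2 * w) / Kf ≤ 2 := by linarith
      gcongr
    have h6 : (Kf * (1 - 2 * m) + (2 * m - 1 - 2 * w) / Kf) * Kf =
        Kf ^ 2 * (1 - 2 * m) + (2 * m - 1 - 2 * w) := by
      field_simp
    rw [h6] at h5
    linarith
  have H4 : (M D).re ≤ a / 3 + 3 * m + e := by
    let φ1 : P.Alg := (1 / 3 : ℂ) • v + (3 : ℂ) • k - D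
    have h1 : ∀ b, (φ1 : P.X →ᵇ ℂ) b = (1 / 3) * (v : P.X →ᵇ ℂ) b + 3 * (k : P.X →ᵇ ℂ) b -
        (D : P.X →ᵇ ℂ) b := by
      intro b; simp [φ1]
    have hDn : ‖D‖ ≤ 2 := by
      calc ‖D‖ ≤ ‖f * u‖ + ‖v‖ := norm_add_le _ _
        _ ≤ 1 + 1 := add_le_add ((hfmul u).trans hun) hvn
        _ = 2 := by norm_num
    have hn : ‖φ1‖ ≤ 6 := by
      calc ‖φ1‖ ≤ ‖(1 / 3 : ℂ) • v + (3 : ℂ) • k‖ + ‖D‖ := norm_sub_le _ _
        _ ≤ (‖(1 / 3 : ℂ) • v‖ + ‖(3 : ℂ) • k‖) + 2 := add_le_add (norm_add_le _ _) hDn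
        _ ≤ (1 / 3 * 1 + 3 * 1) + 2 := by
            rw [norm_smul, norm_smul]
            norm_num
            linarith
        _ ≤ 6 := by norm_num
    have hre : ∀ b, 0 ≤ ((φ1 : P.X →ᵇ ℂ) b).re := by
      intro b
      rw [h1]
      have h2 := (Complex.re_le_norm _).trans (hDb b)
      have h3 : ((1 / 3) * (v : P.X →ᵇ ℂ) b + 3 * (k : P.X →ᵇ ℂ) b -
        (D : P.X →ᵇ ℂ) b).re = (1 / 3) * ((v : P.X →ᵇ ℂ) b).re + 3 * ((k : P.X →ᵇ ℂ) b).re -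
        ((D : P.X →ᵇ ℂ) b).re := by
        simp
      rw [h3]
      linarith
    have h2 := hpos φ1 hn hre
    have h3 : (M φ1).re = a / 3 + 3 * m - (M D).re := by
      simp only [φ1]
      rw [map_sub, map_add, map_smul, map_smul, ha, hm]
      simp
      ring
    linarith
  have H5 : a = (M D).re - w := by
    simp only [D]
    rw [map_add, Complex.add_re, hw, ha]
    ring
  have H6 : eps0 - e ≤ m + a := by
    let φ2 : P.Alg := k + v - (eps0 : ℂ) • 1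
    have h1 : ∀ b, (φ2 : P.X →ᵇ ℂ) b = (k : P.X →ᵇ ℂ) b + (v : P.X →ᵇ ℂ) b - eps0 := by
      intro b; simp [φ2]
    have hn : ‖φ2‖ ≤ 6 := by
      apply norm_le_of P _ (by norm_num)
      intro b
      rw [h1]
      have h2 := (coe_norm_le P k b).trans hkn
      have h3 := (coe_norm_le P v b).trans hvn
      calc _ ≤ ‖(k : P.X →ᵇ ℂ) b + (v : P.X →ᵇ ℂ) b‖ + ‖(eps0 : ℂ)‖ := norm_sub_le _ _
        _ ≤ (‖(k : P.X →ᵇ ℂ) b‖ + ‖(v : P.X →ᵇ ℂ) b‖) + ‖(eps0 : ℂ)‖ := by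
            gcongr; exact norm_add_le _ _
        _ ≤ 6 := by
            rw [Complex.norm_real, Real.norm_of_nonneg hε.le]; linarith
    have hre : ∀ b, 0 ≤ ((φ2 : P.X →ᵇ ℂ) b).re := by
      intro b
      rw [h1]
      have h2 := hG f f.2 hf b
      have h3 : ∫ x, P.R (f : P.X →ᵇ ℂ) x ∂(P.Pm b) = ((v : P.X →ᵇ ℂ) b).re := by
        rw [hvre]
        congr 1
        ext x
        rw [hkR]
      rw [h3, ← hkR] at h2
      simp only [Complex.sub_re, Complex.add_re, Complex.ofReal_re]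
      linarith
    have h2 := hpos φ2 hn hre
    have h3 : (M φ2).re = m + a - eps0 := by
      have h4 : M φ2 = M k + M v - (eps0 : ℂ) • M 1 := by
        rw [← LinearMap.map_smul M (eps0 : ℂ) 1, ← map_add, ← map_sub]
      rw [h4, hM1, ha, hm]
      simp
    linarith
  exact arith eps0 e Kf m a w _ (M D).re hε hε1 he hKfs rfl H1 H2 H3 H4 H5 H6

end

end Pool.Agent.Helper51.CP
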